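import Pool.Agent.Helper20.EX3.Statements

/-!
# MP_2857a5_co : module KIII
-/

set_option autoImplicit false

open Finset
open scoped Classical

namespace OT

noncomputable section

variable {V : Type} [Fintype V]

theorem kiii_typ_mono {D : V → V → Prop} {W : Bool × Bool → Finset V} {δ δ' : ℝ}
    (h : Typ D W δ) (hδ : δ ≤ δ') : Typ D W δ' := by
  have hn : (0 : ℝ) ≤ (Fintype.card V : ℝ) := by positivity
  have hm : δ * (Fintype.card V : ℝ) ≤ δ' * (Fintype.card V : ℝ) :=
    mul_le_mul_of_nonneg_right hδ hn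
  refine ⟨h.disj, fun k l hkl w hw => (h.out k l hkl w hw).trans hm,
    fun k l hkl w hw => (h.inn k l hkl w hw).trans hm, fun b => ?_, fun b => ?_⟩
  · have := h.inB b
    linarith
  · have := h.outB b
    linarith

/-- the union of the typical sets -/
theorem kiii_union {D : V → V → Prop} {W : Bool × Bool → Finset V} {δ : ℝ}
    (h : Typ D W δ) (N : Finset V) :
    (N.card : ℝ) ≤ ((W (true, true) ∩ N).card : ℝ) + ((W (true, false) ∩ N).card : ℝ) +
      ((W (false, true) ∩ N).card : ℝ) + ((W (false, false) ∩ N).card : ℝ) +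
      ((univ.filter fun v => Exc W v).card : ℝ) := by
  have h1 : N ⊆ (W (true, true) ∩ N) ∪ (W (true, false) ∩ N) ∪ (W (false, true) ∩ N) ∪
      (W (false, false) ∩ N) ∪ (univ.filter fun v => Exc W v) := by
    intro v hv
    simp only [mem_union, mem_inter, mem_filter, mem_univ, true_and]
    by_cases hE : Exc W v
    · exact Or.inr hE
    · left
      unfold Exc at hE
      push Not at hE
      obtain ⟨⟨a, b⟩, hab⟩ := hE
      cases a <;> cases b
      · exact Or.inr ⟨hab, hv⟩
      · exact Or.inl (Or.inr ⟨hab, hv⟩)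
      · exact Or.inl (Or.inl (Or.inr ⟨hab, hv⟩))
      · exact Or.inl (Or.inl (Or.inl ⟨hab, hv⟩))
  have h2 := card_le_card h1
  have h3 := card_union_le ((W (true, true) ∩ N) ∪ (W (true, false) ∩ N) ∪ (W (false, true) ∩ N) ∪
      (W (false, false) ∩ N)) (univ.filter fun v => Exc W v)
  have h4 := card_union_le ((W (true, true) ∩ N) ∪ (W (true, false) ∩ N) ∪
    (W (false, true) ∩ N)) (W (false, false) ∩ N)
  have h5 := card_union_le ((W (true, true) ∩ N) ∪ (W (true, false) ∩ N)) (W (false, true) ∩ N)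
  have h6 := card_union_le (W (true, true) ∩ N) (W (true, false) ∩ N)
  have h7 : N.card ≤ (W (true, true) ∩ N).card + (W (true, false) ∩ N).card +
      (W (false, true) ∩ N).card + (W (false, false) ∩ N).card +
      (univ.filter fun v => Exc W v).card := by omega
  exact_mod_cast h7

theorem kiii_total {D : V → V → Prop} {W : Bool × Bool → Finset V} {δ : ℝ}
    (h : Typ D W δ) :
    ((W (true, true)).card : ℝ) + ((W (true, false)).card : ℝ) +
      ((W (false, true)).card : ℝ) + ((W (false, false)).card : ℝ) +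
      ((univ.filter fun v => Exc W v).card : ℝ) = (Fintype.card V : ℝ) := by
  have h1 : (univ : Finset V) = (((W (true, true) ∪ W (true, false)) ∪ W (false, true)) ∪
      W (false, false)) ∪ (univ.filter fun v => Exc W v) := by
    ext v
    simp only [mem_union, mem_filter, mem_univ, true_and, true_iff]
    by_cases hE : Exc W v
    · exact Or.inr hE
    · left
      unfold Exc at hE
      push Not at hE
      obtain ⟨⟨a, b⟩, hab⟩ := hE
      cases a <;> cases b
      · exact Or.inr hab
      · exact Or.inl (Or.inr hab)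
      · exact Or.inl (Or.inl (Or.inr hab))
      · exact Or.inl (Or.inl (Or.inl hab))
  have d1 := h.disj (true, true) (true, false) (by simp)
  have d2 := h.disj (true, true) (false, true) (by simp)
  have d3 := h.disj (true, true) (false, false) (by simp)
  have d4 := h.disj (true, false) (false, true) (by simp)
  have d5 := h.disj (true, false) (false, false) (by simp)
  have d6 := h.disj (false, true) (false, false) (by simp)
  have dE : ∀ k, Disjoint (W k) (univ.filter fun v => Exc W v) := by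
    intro k
    rw [disjoint_left]
    intro v hv hv'
    exact (mem_filter.1 hv').2 k hv
  have h2 : Fintype.card V = (W (true, true)).card + (W (true, false)).card +
      (W (false, true)).card + (W (false, false)).card +
      (univ.filter fun v => Exc W v).card := by
    rw [← card_univ, h1, card_union_of_disjoint, card_union_of_disjoint, card_union_of_disjoint,
      card_union_of_disjoint d1]
    · rw [← h1]
    · rw [disjoint_union_left]; exact ⟨d2, d4⟩
    · rw [disjoint_union_left, disjoint_union_left]; exact ⟨⟨d3, d5⟩, d6⟩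
    · rw [disjoint_union_left, disjoint_union_left, disjoint_union_left]
      exact ⟨⟨⟨dE _, dE _⟩, dE _⟩, dE _⟩
  rw [h2]
  push_cast
  ring

/-- every vertex has an in-option -/
theorem kiii_opt {D : V → V → Prop} {W : Bool × Bool → Finset V} {δ L : ℝ}
    (h : Typ D W δ) (hδ : δ ≤ 1 / 100) (hL : 0 ≤ L) (hD : SemiDeg D L) (v : V) :
    ∃ k, Opt D W (1 / 20) false k v := by
  have h1 := kiii_union h (adjN D false v)
  have h2 := hD.deg false v
  have h3 := kiii_total h
  have i1 := h.inB true
  have i2 := h.inB false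
  have hn : (0 : ℝ) ≤ (Fintype.card V : ℝ) := by positivity
  by_contra hno
  push Not at hno
  have a1 := hno (true, true)
  have a2 := hno (true, false)
  have a3 := hno (false, true)
  have a4 := hno (false, false)
  unfold Opt at a1 a2 a3 a4
  push Not at a1 a2 a3 a4
  have hδn : δ * (Fintype.card V : ℝ) ≤ 1 / 100 * (Fintype.card V : ℝ) :=
    mul_le_mul_of_nonneg_right hδ hn
  have hpos : (0 : ℝ) < (Fintype.card V : ℝ) := by
    have : 0 < Fintype.card V := Fintype.card_pos_iff.2 ⟨v⟩
    exact_mod_cast this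
  linarith

theorem x3_kiii (hT3 : StT3) (hInst : StInst) (hAsm : StAsmK) : StKIII := by
  intro Δ γ ε hγ hε
  obtain ⟨σ, hσ, hT3'⟩ := hT3 Δ 3 (γ / 2) ε (by positivity) hε
  obtain ⟨δ₁, hδ₁, N₁, hAsm'⟩ := hAsm Δ σ γ (1 / 20) hσ hγ (by norm_num)
  obtain ⟨η₁, hη₁, C₀, N₀, hT3''⟩ := hT3' (δ₁ / 2) (by positivity)
  obtain ⟨cI, L₀, hcI, hInst'⟩ := hInst (Δ + 1) (1 / 20) (by norm_num) le_rfl
  set C : ℕ := ⌈C₀⌉₊ with hC
  have hCC : C₀ ≤ C := Nat.le_ceil C₀
  set u : ℕ := 6 * C + 10 with hu
  set δ : ℝ := min (1 / 100) (min (δ₁ / 10) (min (η₁ / 100) (γ / 10))) with hδ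
  have hδ0 : 0 < δ := by
    rw [hδ]
    exact lt_min (by norm_num) (lt_min (by positivity) (lt_min (by positivity) (by positivity)))
  have hδa : δ ≤ 1 / 100 := min_le_left _ _
  have hδb : δ ≤ δ₁ / 10 := (min_le_right _ _).trans (min_le_left _ _)
  have hδc : δ ≤ η₁ / 100 :=
    (min_le_right _ _).trans ((min_le_right _ _).trans (min_le_left _ _))
  have hδd : δ ≤ γ / 10 :=
    (min_le_right _ _).trans ((min_le_right _ _).trans (min_le_right _ _))
  -- large `n`
  have hlog : ∃ N₂ : ℕ, ∀ n : ℕ, N₂ ≤ n → L₀ ≤ Real.log n ∧ ((u : ℝ) + C) / cI ≤ Real.log n ∧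
      0 ≤ Real.log n ∧ (u : ℝ) ≤ δ₁ * n ∧ 2 * (u : ℝ) ≤ η₁ / 2 * n := by
    have t1 : Filter.Tendsto (fun n : ℕ => Real.log n) Filter.atTop Filter.atTop :=
      Real.tendsto_log_atTop.comp tendsto_natCast_atTop_atTop
    have t2 : Filter.Tendsto (fun n : ℕ => δ₁ * (n : ℝ)) Filter.atTop Filter.atTop :=
      tendsto_natCast_atTop_atTop.const_mul_atTop hδ₁
    have t3 : Filter.Tendsto (fun n : ℕ => η₁ / 2 * (n : ℝ)) Filter.atTop Filter.atTop :=
      tendsto_natCast_atTop_atTop.const_mul_atTop (by positivity)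
    have := ((t1.eventually_ge_atTop L₀).and ((t1.eventually_ge_atTop (((u : ℝ) + C) / cI)).and
      ((t1.eventually_ge_atTop 0).and ((t2.eventually_ge_atTop (u : ℝ)).and
      (t3.eventually_ge_atTop (2 * (u : ℝ)))))))
    exact Filter.eventually_atTop.1 this
  obtain ⟨N₂, hN₂⟩ := hlog
  refine ⟨δ, 1, max (max N₀ N₁) (max N₂ 1), hδ0, ?_⟩
  intro n hn V _ hV D W hTyp hW hSD T hT hSnk
  have hn0 : N₀ ≤ n := le_trans (le_trans (le_max_left _ _) (le_max_left _ _)) hn
  have hn1 : N₁ ≤ n := le_trans (le_trans (le_max_right _ _) (le_max_left _ _)) hn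
  have hn2 : N₂ ≤ n := le_trans (le_trans (le_max_left _ _) (le_max_right _ _)) hn
  have hn3 : 1 ≤ n := le_trans (le_trans (le_max_right _ _) (le_max_right _ _)) hn
  obtain ⟨hl1, hl2, hl3, hl4, hl5⟩ := hN₂ n hn2
  rw [one_mul] at hSD
  have hnR : (1 : ℝ) ≤ n := by exact_mod_cast hn3
  have hVn : (Fintype.card V : ℝ) = n := by rw [hV]
  obtain ⟨k, k', k'', hkk, S, lv, hStars, hScard, hSopt⟩ :=
    hInst' V D W δ (Real.log n) (by omega) hTyp hδa hSD hl1
  -- options
  have hopt : ∀ v, ∃ k, Opt D W (1 / 20) false k v := kiii_opt hTyp hδa hl3 hSD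
  choose α hα using hopt
  -- sizes
  have tot := kiii_total hTyp
  have iT := hTyp.inB true
  have iF := hTyp.inB false
  have oT := hTyp.outB true
  have oF := hTyp.outB false
  rw [hVn] at tot iT iF oT oF
  have eN : (0 : ℝ) ≤ ((univ.filter fun v => Exc W v).card : ℝ) := by positivity
  set x : ℝ := ((W (false, true)).card : ℝ) / n with hx
  have hxn : x * n = ((W (false, true)).card : ℝ) := by
    rw [hx]; field_simp
  have hx1 : γ / 2 ≤ x := by
    rw [hx, le_div_iff₀ (by linarith)]
    have := hW (false, true)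
    linarith
  have hx2 : x ≤ 1 / 2 - γ / 2 := by
    rw [hx, div_le_iff₀ (by linarith)]
    have h1 := hW (false, false)
    have h2 : δ * (n : ℝ) ≤ γ / 10 * n := mul_le_mul_of_nonneg_right hδd (by linarith)
    have h3 : 0 < γ * (n : ℝ) := by positivity
    linarith
  -- the units
  have hSu : u + C ≤ S.card := by
    have h1 : ((u : ℝ) + C) ≤ cI * Real.log n := by
      rw [div_le_iff₀ hcI] at hl2
      linarith
    have h2 : ((u + C : ℕ) : ℝ) ≤ (S.card : ℝ) := by
      push_cast
      linarith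
    exact_mod_cast h2
  obtain ⟨Cu, hCuS, hCuc⟩ := exists_subset_card_eq (by omega : u ≤ S.card)
  set A : Finset V := univ.filter fun v =>
    (v ∈ W (true, true) ∨ v ∈ W (true, false)) ∧ v ∉ Cu with hA
  set B : Finset V := univ.filter fun v => Exc W v ∧ v ∉ Cu ∧ (α v).2 = true with hB
  have hA1 : (A.card : ℝ) ≤ ((W (true, true)).card : ℝ) + ((W (true, false)).card : ℝ) := by
    have h1 : A ⊆ W (true, true) ∪ W (true, false) := by
      intro v hv
      rw [mem_filter] at hv
      exact mem_union.2 hv.2.1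
    have h2 := (card_le_card h1).trans (card_union_le _ _)
    exact_mod_cast h2
  have hA2 : ((W (true, true)).card : ℝ) + ((W (true, false)).card : ℝ) ≤ (A.card : ℝ) + u := by
    have h1 : W (true, true) ∪ W (true, false) ⊆ A ∪ Cu := by
      intro v hv
      rw [mem_union] at hv
      by_cases h3 : v ∈ Cu
      · exact mem_union_right _ h3
      · exact mem_union_left _ (mem_filter.2 ⟨mem_univ _, hv, h3⟩)
    have h2 := (card_le_card h1).trans (card_union_le _ _)
    rw [card_union_of_disjoint (hTyp.disj _ _ (by simp)), hCuc] at h2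
    exact_mod_cast h2
  have hB1 : (B.card : ℝ) ≤ ((univ.filter fun v => Exc W v).card : ℝ) := by
    have h1 : B ⊆ univ.filter fun v => Exc W v := by
      intro v hv
      rw [mem_filter] at hv
      exact mem_filter.2 ⟨mem_univ _, hv.2.1⟩
    exact_mod_cast card_le_card h1
  have hB0 : (0 : ℝ) ≤ (B.card : ℝ) := by positivity
  have hN1 : |((A.card : ℝ) + B.card + u / 2) - (n : ℝ) / 2| ≤ η₁ * n := by
    have hu0 : (0 : ℝ) ≤ (u : ℝ) := by positivity
    have h1 : δ * n ≤ η₁ / 100 * n := mul_le_mul_of_nonneg_right hδc (by linarith)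
    have h1' : 0 < η₁ * (n : ℝ) := by positivity
    rw [abs_le]
    constructor <;> linarith
  obtain ⟨Z, lab, hZc, hZsep, harc, hZlab, hcount, hlabs, hctx⟩ :=
    hT3'' n T hn0 hT hSnk x hx1 hx2 k k' k'' hkk ((A.card : ℝ) + B.card + u / 2) hN1
  have hZC : Z.card ≤ C := by
    have : (Z.card : ℝ) ≤ C := hZc.trans hCC
    exact_mod_cast this
  -- the hosts of `Z`
  have hψ : ∃ ψ : Fin n → V, (∀ z ∈ Z, ψ z ∈ S \ Cu) ∧ Set.InjOn ψ Z := by
    have h1 : Z.card ≤ (S \ Cu).card := by
      rw [card_sdiff_of_subset hCuS, hCuc]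
      omega
    obtain ⟨S', hS', hS'c⟩ := exists_subset_card_eq h1
    have e := (Z.equivOfCardEq hS'c.symm)
    have hne : Nonempty V := Fintype.card_pos_iff.1 (by omega)
    refine ⟨fun z => if hz : z ∈ Z then (e ⟨z, hz⟩ : V) else Classical.arbitrary V, ?_, ?_⟩
    · intro z hz
      simp only [dif_pos hz]
      exact hS' (e ⟨z, hz⟩).2
    · intro z hz w hw h2
      rw [mem_coe] at hz hw
      simp only [dif_pos hz, dif_pos hw] at h2
      have h3 := e.injective (Subtype.ext h2)
      exact congrArg Subtype.val h3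
  obtain ⟨ψ, hψS, hψinj⟩ := hψ
  have hZδ : (Z.card : ℝ) ≤ δ₁ * n := by
    have h1 : (Z.card : ℝ) ≤ C := by exact_mod_cast hZC
    have h2 : (C : ℝ) ≤ u := by
      have : C ≤ u := by omega
      exact_mod_cast this
    linarith
  refine hAsm' n hn1 V hV D W (kiii_typ_mono hTyp (by linarith)) hW T hT k k' k'' hkk S lv hStars
    hSopt Z lab ψ hZδ hZsep (fun z hz => (mem_sdiff.1 (hψS z hz)).1) hψinj harc hZlab Cu hCuS
    (fun z hz => (mem_sdiff.1 (hψS z hz)).2) (by rw [hCuc]; exact hl4) α (fun v _ => hα v) hctx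
    ?_ ?_
  · intro l
    have h1 := hlabs l
    rw [abs_le] at h1 ⊢
    have h2 : δ * n ≤ δ₁ / 10 * n := mul_le_mul_of_nonneg_right hδb (by linarith)
    rcases l with ⟨a, b⟩
    cases a <;> cases b <;> simp only [if_true, reduceCtorEq, if_false] at h1 <;>
      constructor <;> linarith
  · set A' : Finset V := univ.filter fun v =>
      (v ∈ W (true, true) ∨ v ∈ W (true, false)) ∧ v ∉ Cu ∧ ∀ z ∈ Z, ψ z ≠ v with hA'
    set B' : Finset V := univ.filter fun v =>
      Exc W v ∧ v ∉ Cu ∧ (∀ z ∈ Z, ψ z ≠ v) ∧ (α v).2 = true with hB'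
    have hAA : A'.card ≤ A.card := by
      refine card_le_card fun v hv => ?_
      rw [mem_filter] at hv
      exact mem_filter.2 ⟨hv.1, hv.2.1, hv.2.2.1⟩
    have hBB : B'.card ≤ B.card := by
      refine card_le_card fun v hv => ?_
      rw [mem_filter] at hv
      exact mem_filter.2 ⟨hv.1, hv.2.1, hv.2.2.1, hv.2.2.2.2⟩
    have hAA' : A.card ≤ A'.card + Z.card := by
      have h1 : A ⊆ A' ∪ Z.image ψ := by
        intro v hv
        rw [mem_filter] at hv
        by_cases h3 : v ∈ Z.image ψ
        · exact mem_union_right _ h3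
        · refine mem_union_left _ (mem_filter.2 ⟨hv.1, hv.2.1, hv.2.2, fun z hz h4 => h3 ?_⟩)
          exact mem_image.2 ⟨z, hz, h4⟩
      have h2 := (card_le_card h1).trans (card_union_le _ _)
      have h3 : (Z.image ψ).card ≤ Z.card := card_image_le
      omega
    have hBB' : B.card ≤ B'.card + Z.card := by
      have h1 : B ⊆ B' ∪ Z.image ψ := by
        intro v hv
        rw [mem_filter] at hv
        by_cases h3 : v ∈ Z.image ψ
        · exact mem_union_right _ h3
        · refine mem_union_left _ (mem_filter.2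
            ⟨hv.1, hv.2.1, hv.2.2.1, fun z hz h4 => h3 ?_, hv.2.2.2⟩)
          exact mem_image.2 ⟨z, hz, h4⟩
      have h2 := (card_le_card h1).trans (card_union_le _ _)
      have h3 : (Z.image ψ).card ≤ Z.card := card_image_le
      omega
    have hcount' : |(((univ.filter fun v => v ∉ Z ∧ (lab v).1 = true).card : ℕ) : ℝ) -
        ((A.card : ℝ) + B.card + u / 2)| ≤ C := hcount.trans hCC
    set M : ℕ := (univ.filter fun v => v ∉ Z ∧ (lab v).1 = true).card with hM
    rw [abs_le] at hcount'
    obtain ⟨hc1, hc2⟩ := hcount'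
    have huR : (u : ℝ) = 6 * C + 10 := by rw [hu]; push_cast; ring
    have q1 : ((A.card + B.card + 2 * C + 5 : ℕ) : ℝ) ≤ ((M : ℕ) : ℝ) := by
      push_cast
      linarith
    have q2 : ((M : ℕ) : ℝ) ≤ ((A.card + B.card + 4 * C + 5 : ℕ) : ℝ) := by
      push_cast
      linarith
    have q1' : A.card + B.card + 2 * C + 5 ≤ M := by exact_mod_cast q1
    have q2' : M ≤ A.card + B.card + 4 * C + 5 := by exact_mod_cast q2
    refine ⟨M - (A'.card + B'.card), ?_, ?_⟩
    · rw [hCuc]
      omega
    · omega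

end

end OT
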