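import Pool.Agent.Helper20.EX3.Statements
import Pool.Agent.Helper62.EX.TB

/-!
# MP_2857a5_co : module MET
-/

set_option autoImplicit false

open Finset
open scoped Classical

namespace OT

noncomputable section

theorem met_sdr {α β : Type} [Nonempty β] (Y : Finset α) (C : α → Finset β)
    (h : ∀ y ∈ Y, Y.card ≤ (C y).card) :
    ∃ g : α → β, Set.InjOn g Y ∧ ∀ y ∈ Y, g y ∈ C y := by
  induction Y using Finset.induction_on with
  | empty => exact ⟨fun _ => Classical.arbitrary β, by simp, by simp⟩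
  | insert a Y ha ih =>
    have hc : (insert a Y).card = Y.card + 1 := card_insert_of_notMem ha
    obtain ⟨g, hg1, hg2⟩ := ih fun y hy => by
      have := h y (mem_insert_of_mem hy)
      omega
    have h1 : (Y.image g).card < (C a).card := by
      have h2 := h a (mem_insert_self a Y)
      have h3 : (Y.image g).card ≤ Y.card := card_image_le
      omega
    obtain ⟨b, hb1, hb2⟩ := exists_mem_notMem_of_card_lt_card h1
    have hne : ∀ y ∈ Y, y ≠ a := fun y hy e => ha (e ▸ hy)
    refine ⟨Function.update g a b, ?_, ?_⟩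
    · intro x hx y hy e
      rw [mem_coe, mem_insert] at hx hy
      rcases hx with rfl | hx <;> rcases hy with rfl | hy
      · rfl
      · exfalso
        rw [Function.update_self, Function.update_of_ne (hne y hy)] at e
        exact hb2 (mem_image.2 ⟨y, hy, e.symm⟩)
      · exfalso
        rw [Function.update_self, Function.update_of_ne (hne x hx)] at e
        exact hb2 (mem_image.2 ⟨x, hx, e⟩)
      · rw [Function.update_of_ne (hne x hx), Function.update_of_ne (hne y hy)] at e
        exact hg1 hx hy e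
    · intro y hy
      rw [mem_insert] at hy
      rcases hy with rfl | hy
      · rw [Function.update_self]; exact hb1
      · rw [Function.update_of_ne (hne y hy)]; exact hg2 y hy

variable {n : ℕ}

theorem met_arc_nb {T : PTree n} {x y : Fin n} (h : T.Arc x y) : T.Nb x y := by
  rcases h with ⟨h0, h1, _⟩ | ⟨h0, h1, _⟩
  · exact Or.inl ⟨h0, h1⟩
  · exact Or.inr ⟨h0, h1⟩

theorem met_nb_arc {T : PTree n} {x y : Fin n} (h : T.Nb x y) : T.Arc x y ∨ T.Arc y x := by
  rcases h with ⟨h0, h1⟩ | ⟨h0, h1⟩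
  · cases hs : T.sg y
    · exact Or.inr (Or.inr ⟨h0, h1, hs⟩)
    · exact Or.inl (Or.inl ⟨h0, h1, hs⟩)
  · cases hs : T.sg x
    · exact Or.inl (Or.inr ⟨h0, h1, hs⟩)
    · exact Or.inr (Or.inl ⟨h0, h1, hs⟩)

theorem met_arc_asymm {T : PTree n} {x y : Fin n} (h : T.Arc x y) (h' : T.Arc y x) : False := by
  rcases h with ⟨h0, h1, h2⟩ | ⟨h0, h1, h2⟩ <;> rcases h' with ⟨h3, h4, h5⟩ | ⟨h3, h4, h5⟩
  · have h6 := T.lt y h0
    have h7 := T.lt x h3
    rw [h1] at h6
    rw [h4] at h7
    exact lt_asymm h6 h7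
  · rw [h2] at h5; exact absurd h5 (by simp)
  · rw [h2] at h5; exact absurd h5 (by simp)
  · have h6 := T.lt x h0
    have h7 := T.lt y h3
    rw [h1] at h6
    rw [h4] at h7
    exact lt_asymm h6 h7

theorem met_col {T : PTree n} {x y : Fin n} (h : T.Nb x y) : T.col x ≠ T.col y := by
  rcases h with ⟨h0, h1⟩ | ⟨h0, h1⟩
  · have := T.col_par y h0
    rw [h1] at this
    rw [this]
    cases T.col x <;> simp
  · have := T.col_par x h0
    rw [h1] at this
    rw [this]
    cases T.col y <;> simp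

theorem x3_met (h : StMetA) : StMet := by
  intro Δ ζ ρ hζ hρ I _
  obtain ⟨η, θ₀, N₀, hη, hθ₀, hmain⟩ := h Δ ζ hζ I
  have hΔ : (0 : ℝ) < (Δ : ℝ) + 2 := by positivity
  refine ⟨η, min (θ₀ / (Δ + 2)) (ρ / (4 * (Δ + 2))), max N₀ 1, hη,
    lt_min (by positivity) (by positivity), ?_⟩
  intro n hn T hT V _ hV D W hdisj hW Rel hRel1 hRel2 Sp ψ κ Lf lam hSp hM
  have hn0 : N₀ ≤ n := le_trans (le_max_left _ _) hn
  have hn1 : 1 ≤ n := le_trans (le_max_right _ _) hn
  have hnR : (1 : ℝ) ≤ n := by exact_mod_cast hn1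
  have hne : Nonempty V := Fintype.card_pos_iff.1 (by omega)
  set P : Finset (Fin n) := Sp ∪ univ.filter (fun y => ∃ x ∈ Sp, T.Nb x y) with hP
  have hmemP : ∀ y, y ∈ P ↔ y ∈ Sp ∨ ∃ x ∈ Sp, T.Nb x y := by
    intro y; rw [hP, mem_union, mem_filter]; simp
  have hPcard : P.card ≤ (Δ + 2) * Sp.card := by
    have h1 : P ⊆ Sp.biUnion (T.ball 1) := by
      intro y hy
      rw [mem_biUnion]
      rcases (hmemP y).1 hy with h2 | ⟨x, hx, hxy⟩
      · exact ⟨y, h2, T.self_mem_ball 1 y⟩
      · exact ⟨x, hx, hxy.mem_ball⟩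
    have h2 := (card_le_card h1).trans
      (card_biUnion_le_card_mul Sp (T.ball 1) (Δ + 2) fun x _ => by
        have := T.card_ball hT 1 x
        rwa [pow_one] at this)
    rw [mul_comm]
    exact h2
  have hPcardR : (P.card : ℝ) ≤ (Δ + 2) * Sp.card := by exact_mod_cast hPcard
  have hPθ : (P.card : ℝ) ≤ θ₀ * n := by
    have h1 : (Sp.card : ℝ) ≤ θ₀ / (Δ + 2) * n :=
      hSp.trans (by gcongr; exact min_le_left _ _)
    calc (P.card : ℝ) ≤ (Δ + 2) * Sp.card := hPcardR
      _ ≤ (Δ + 2) * (θ₀ / (Δ + 2) * n) := by gcongr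
      _ = θ₀ * n := by field_simp
  have hPρ : (P.card : ℝ) ≤ ρ / 4 * n := by
    have h1 : (Sp.card : ℝ) ≤ ρ / (4 * (Δ + 2)) * n :=
      hSp.trans (by gcongr; exact min_le_right _ _)
    calc (P.card : ℝ) ≤ (Δ + 2) * Sp.card := hPcardR
      _ ≤ (Δ + 2) * (ρ / (4 * (Δ + 2)) * n) := by gcongr
      _ = ρ / 4 * n := by field_simp
  have hSpP : Sp ⊆ P := fun x hx => (hmemP x).2 (Or.inl hx)
  have hSpcard : Sp.card ≤ P.card := card_le_card hSpP
  -- the special neighbour
  have huniq : ∀ y x x', x ∈ Sp → x' ∈ Sp → T.Nb x y → T.Nb x' y → x = x' := by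
    intro y x x' hx hx' h1 h2
    by_contra hne'
    refine hM.sep x hx x' hx' hne' (T.ball_mono (by norm_num : 2 ≤ 3) x ?_)
    exact PTree.ball_trans (j := 1) (k := 1) h1.mem_ball h2.symm.mem_ball
  have hxs : ∃ xs : Fin n → Fin n, ∀ y, y ∈ P → y ∉ Sp → xs y ∈ Sp ∧ T.Nb (xs y) y := by
    refine ⟨fun y => if h : ∃ x ∈ Sp, T.Nb x y then h.choose else y, fun y hy hy' => ?_⟩
    rcases (hmemP y).1 hy with h1 | h1
    · exact absurd h1 hy'
    · simp only [dif_pos h1]
      exact h1.choose_spec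
  obtain ⟨xs, hxs⟩ := hxs
  set Y : Finset (Fin n) := (P \ Sp) \ Lf with hY
  have hmemY : ∀ y, y ∈ Y ↔ (y ∈ P ∧ y ∉ Sp) ∧ y ∉ Lf := by
    intro y; rw [hY, mem_sdiff, mem_sdiff]
  set Fb : Finset V := Sp.image ψ ∪ (Lf ∩ P).image lam with hFb
  have hFbcard : Fb.card ≤ 2 * P.card := by
    have h1 : Fb.card ≤ (Sp.image ψ).card + ((Lf ∩ P).image lam).card := card_union_le _ _
    have h2 : (Sp.image ψ).card ≤ Sp.card := card_image_le
    have h3 : ((Lf ∩ P).image lam).card ≤ (Lf ∩ P).card := card_image_le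
    have h4 : (Lf ∩ P).card ≤ P.card := card_le_card inter_subset_right
    omega
  have hYcard : Y.card ≤ P.card := card_le_card fun y hy => ((hmemY y).1 hy).1.1
  obtain ⟨g, hginj, hg⟩ := met_sdr Y
    (fun y => (W (κ y) ∩ adjN D (decide (T.Arc (xs y) y)) (ψ (xs y))) \ Fb) (by
      intro y hy
      rw [hmemY] at hy
      obtain ⟨hx1, hx2⟩ := hxs y hy.1.1 hy.1.2
      have h1 : ρ * (n : ℝ) ≤
          ((W (κ y) ∩ adjN D (decide (T.Arc (xs y) y)) (ψ (xs y))).card : ℝ) := by
        by_cases ha : T.Arc (xs y) y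
        · simp only [ha, decide_true]
          exact hM.outF _ hx1 y hy.2 ha
        · simp only [ha, decide_false]
          exact hM.inF _ hx1 y hy.2 ((met_nb_arc hx2).resolve_left ha)
      have h2 : (W (κ y) ∩ adjN D (decide (T.Arc (xs y) y)) (ψ (xs y))).card ≤
          ((W (κ y) ∩ adjN D (decide (T.Arc (xs y) y)) (ψ (xs y))) \ Fb).card + Fb.card := by
        have h3 := le_card_sdiff Fb
          (W (κ y) ∩ adjN D (decide (T.Arc (xs y) y)) (ψ (xs y)))
        omega
      have h4 : (3 * P.card : ℝ) ≤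
          ((W (κ y) ∩ adjN D (decide (T.Arc (xs y) y)) (ψ (xs y))).card : ℝ) := by
        have h5 : (3 * P.card : ℝ) ≤ 3 * (ρ / 4 * n) := by linarith
        have h6 : 3 * (ρ / 4 * (n : ℝ)) ≤ ρ * n := by nlinarith
        linarith
      have h7 : 3 * P.card ≤
          (W (κ y) ∩ adjN D (decide (T.Arc (xs y) y)) (ψ (xs y))).card := by
        exact_mod_cast h4
      omega)
  -- the embedding of `P`
  set f : Fin n → V := fun y => if y ∈ Sp then ψ y else if y ∈ Lf then lam y else g y with hf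
  have hf1 : ∀ y, y ∈ Sp → f y = ψ y := fun y hy => by simp only [hf, if_pos hy]
  have hf2 : ∀ y, y ∉ Sp → y ∈ Lf → f y = lam y := fun y hy hy' => by
    simp only [hf, if_neg hy, if_pos hy']
  have hf3 : ∀ y, y ∉ Sp → y ∉ Lf → f y = g y := fun y hy hy' => by
    simp only [hf, if_neg hy, if_neg hy']
  have hgW : ∀ y ∈ Y, g y ∈ W (κ y) := fun y hy =>
    (mem_inter.1 (mem_sdiff.1 (hg y hy)).1).1
  have hgA : ∀ y ∈ Y, Adj D (decide (T.Arc (xs y) y)) (ψ (xs y)) (g y) := fun y hy => by
    have := (mem_inter.1 (mem_sdiff.1 (hg y hy)).1).2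
    rw [adjN, mem_filter] at this
    exact this.2
  have hgF : ∀ y ∈ Y, g y ∉ Fb := fun y hy => (mem_sdiff.1 (hg y hy)).2
  have hfW : ∀ x ∈ P, x ∉ Sp → f x ∈ W (κ x) := by
    intro x hx hx'
    by_cases hL : x ∈ Lf
    · rw [hf2 x hx' hL]; exact (hM.leaf x hL).2.1
    · rw [hf3 x hx' hL]; exact hgW x ((hmemY x).2 ⟨⟨hx, hx'⟩, hL⟩)
  have hfns : ∀ x ∈ P, x ∉ Sp → f x ∉ Sp.image ψ := by
    intro x hx hx'
    by_cases hL : x ∈ Lf
    · rw [hf2 x hx' hL]; exact (hM.leaf x hL).2.2
    · rw [hf3 x hx' hL]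
      exact fun h1 => hgF x ((hmemY x).2 ⟨⟨hx, hx'⟩, hL⟩) (mem_union_left _ h1)
  have hfinj : Set.InjOn f P := by
    intro x hx y hy e
    rw [mem_coe] at hx hy
    by_cases h1 : x ∈ Sp
    · by_cases h2 : y ∈ Sp
      · rw [hf1 x h1, hf1 y h2] at e
        exact hM.inj h1 h2 e
      · exfalso
        refine hfns y hy h2 ?_
        rw [← e, hf1 x h1]
        exact mem_image_of_mem ψ h1
    · by_cases h2 : y ∈ Sp
      · exfalso
        refine hfns x hx h1 ?_
        rw [e, hf1 y h2]
        exact mem_image_of_mem ψ h2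
      · by_cases h3 : x ∈ Lf
        · by_cases h4 : y ∈ Lf
          · rw [hf2 x h1 h3, hf2 y h2 h4] at e
            exact hM.linj h3 h4 e
          · exfalso
            refine hgF y ((hmemY y).2 ⟨⟨hy, h2⟩, h4⟩) (mem_union_right _ ?_)
            rw [← hf3 y h2 h4, ← e, hf2 x h1 h3]
            exact mem_image_of_mem lam (mem_inter.2 ⟨h3, hx⟩)
        · by_cases h4 : y ∈ Lf
          · exfalso
            refine hgF x ((hmemY x).2 ⟨⟨hx, h1⟩, h3⟩) (mem_union_right _ ?_)
            rw [← hf3 x h1 h3, e, hf2 y h2 h4]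
            exact mem_image_of_mem lam (mem_inter.2 ⟨h4, hy⟩)
          · rw [hf3 x h1 h3, hf3 y h2 h4] at e
            exact hginj (mem_coe.2 ((hmemY x).2 ⟨⟨hx, h1⟩, h3⟩))
              (mem_coe.2 ((hmemY y).2 ⟨⟨hy, h2⟩, h4⟩)) e
  have harc : ∀ x ∈ P, ∀ y ∈ P, T.Arc x y → D (f x) (f y) := by
    intro x hx y hy hxy
    have hnb := met_arc_nb hxy
    by_cases h1 : x ∈ Sp
    · by_cases h2 : y ∈ Sp
      · exfalso
        by_cases e : x = y
        · subst e
          exact met_arc_asymm hxy hxy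
        · exact hM.sep x h1 y h2 e (T.ball_mono (by norm_num : 1 ≤ 3) x hnb.mem_ball)
      · rw [hf1 x h1]
        by_cases h3 : y ∈ Lf
        · rw [hf2 y h2 h3]
          exact hM.outL x h1 y h3 hxy
        · rw [hf3 y h2 h3]
          obtain ⟨h4, h5⟩ := hxs y hy h2
          have h6 : xs y = x := huniq y _ _ h4 h1 h5 hnb
          have h7 := hgA y ((hmemY y).2 ⟨⟨hy, h2⟩, h3⟩)
          rw [h6] at h7
          simp only [hxy, decide_true, Adj, if_true] at h7
          exact h7
    · by_cases h2 : y ∈ Sp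
      · rw [hf1 y h2]
        by_cases h3 : x ∈ Lf
        · rw [hf2 x h1 h3]
          exact hM.inL y h2 x h3 hxy
        · rw [hf3 x h1 h3]
          obtain ⟨h4, h5⟩ := hxs x hx h1
          have h6 : xs x = y := huniq x _ _ h4 h2 h5 hnb.symm
          have h7 := hgA x ((hmemY x).2 ⟨⟨hx, h1⟩, h3⟩)
          rw [h6] at h7
          have h8 : ¬ T.Arc y x := fun h9 => met_arc_asymm hxy h9
          simpa [h8, Adj] using h7
      · exfalso
        obtain ⟨h4, h5⟩ := hxs x hx h1
        obtain ⟨h6, h7⟩ := hxs y hy h2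
        by_cases e : xs x = xs y
        · rw [← e] at h7
          have c1 := met_col h5
          have c2 := met_col h7
          have c3 := met_col hnb
          revert c1 c2 c3
          cases T.col (xs x) <;> cases T.col x <;> cases T.col y <;> simp
        · refine hM.sep _ h4 _ h6 e ?_
          have h8 : y ∈ T.ball 2 (xs x) :=
            PTree.ball_trans (j := 1) (k := 1) h5.mem_ball hnb.mem_ball
          exact PTree.ball_trans (j := 2) (k := 1) h8 h7.symm.mem_ball
  refine hmain n hn0 T hT V hV D W hdisj hW Rel hRel1 hRel2 Sp P f κ hSpP hPθ hfinj harc hfW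
    (fun x hx y hxy => (hmemP y).2 (Or.inr ⟨x, hx, hxy⟩)) hM.arc ?_ ?_
  · intro v hv
    obtain ⟨x, hx, rfl⟩ := mem_image.1 (hM.all v hv)
    exact mem_image.2 ⟨x, hSpP hx, hf1 x hx⟩
  · intro k
    have h0 := hM.count k
    have e1 : (univ.filter fun y => y ∉ Sp ∧ κ y = k).card =
        (univ.filter fun y => y ∉ P ∧ κ y = k).card +
          ((P \ Sp).filter fun y => κ y = k).card := by
      rw [← card_union_of_disjoint]
      · congr 1
        ext y
        simp only [mem_filter, mem_univ, true_and, mem_union, mem_sdiff]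
        constructor
        · rintro ⟨h1, h2⟩
          by_cases h3 : y ∈ P
          · exact Or.inr ⟨⟨h3, h1⟩, h2⟩
          · exact Or.inl ⟨h3, h2⟩
        · rintro (⟨h1, h2⟩ | ⟨⟨h1, h2⟩, h3⟩)
          · exact ⟨fun h3 => h1 (hSpP h3), h2⟩
          · exact ⟨h2, h3⟩
      · rw [disjoint_left]
        intro y h1 h2
        rw [mem_filter] at h1 h2
        exact h1.2.1 (mem_sdiff.1 h2.1).1
    have e2 : (W k \ Sp.image ψ).card = (W k \ P.image f).card +
        (((P \ Sp).filter fun y => κ y = k).image f).card := by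
      rw [← card_union_of_disjoint]
      · congr 1
        ext v
        simp only [mem_union, mem_sdiff]
        constructor
        · rintro ⟨h1, h2⟩
          by_cases h3 : v ∈ P.image f
          · right
            obtain ⟨y, hy, rfl⟩ := mem_image.1 h3
            have h4 : y ∉ Sp := fun h4 => h2 (by rw [hf1 y h4]; exact mem_image_of_mem ψ h4)
            have h5 : κ y = k := by
              by_contra h6
              exact (disjoint_left.1 (hdisj _ _ h6)) (hfW y hy h4) h1
            exact mem_image.2 ⟨y, mem_filter.2 ⟨mem_sdiff.2 ⟨hy, h4⟩, h5⟩, rfl⟩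
          · exact Or.inl ⟨h1, h3⟩
        · rintro (⟨h1, h2⟩ | h1)
          · refine ⟨h1, fun h3 => h2 ?_⟩
            obtain ⟨x, hx, rfl⟩ := mem_image.1 h3
            exact mem_image.2 ⟨x, hSpP hx, hf1 x hx⟩
          · obtain ⟨y, hy, rfl⟩ := mem_image.1 h1
            rw [mem_filter, mem_sdiff] at hy
            refine ⟨?_, hfns y hy.1.1 hy.1.2⟩
            rw [← hy.2]
            exact hfW y hy.1.1 hy.1.2
      · rw [disjoint_left]
        intro v h1 h2
        obtain ⟨y, hy, rfl⟩ := mem_image.1 h2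
        rw [mem_filter, mem_sdiff] at hy
        exact (mem_sdiff.1 h1).2 (mem_image_of_mem f hy.1.1)
    have e3 : (((P \ Sp).filter fun y => κ y = k).image f).card =
        ((P \ Sp).filter fun y => κ y = k).card := by
      refine card_image_of_injOn fun x hx y hy e => ?_
      rw [mem_coe, mem_filter, mem_sdiff] at hx hy
      exact hfinj hx.1.1 hy.1.1 e
    omega

end

end OT
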